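import Pool.Agent.FDS.Stmt
import Pool.Agent.FDS.Main

set_option autoImplicit false

namespace Pool.Agent.Results.MP_c11ecb_lc.FiniteSpectra

/-- Every finite nonempty set `D` of Turing degrees of `Σ⁰ₙ` sets is the degree spectrum of a
unary relation `R` on an algebra `(A, Φ)` with one ternary operation. -/
theorem result (n : ℕ) (D : Set TuringDegree) (hfin : D.Finite) (hne : D.Nonempty)
    (hD : ∀ d ∈ D, ∃ X : Set ℕ, FDS.IsSigma n X ∧ d = FDS.degSet X) :
    ∃ (A : Type) (Φ : A → A → A → A) (R : Set A), FDS.DgSp Φ R = D :=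
  FDS.Main.main n D hfin hne hD

end Pool.Agent.Results.MP_c11ecb_lc.FiniteSpectra
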